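import Pool.Agent.Q101.Modular

set_option autoImplicit false

namespace Pool.Agent.Results.MP_aae45c_an.NeverRegular

open Q101.Modular

/-- For every unbounded sequence of exponents `p_n ≥ 1`, the modular topology of `ℓ^{(p_n)}` is not
regular. -/
theorem result (p : ℕ → ℝ) (hp : ∀ n, 1 ≤ p n) (hunb : ¬ BddAbove (Set.range p)) :
    ¬ @RegularSpace (Sp (rho p)) (top (rho p)) := by
  refine not_regular_of_unbounded hp fun C => ?_
  by_contra hcon
  push Not at hcon
  exact hunb ⟨C, by rintro _ ⟨n, rfl⟩; exact hcon n⟩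

end Pool.Agent.Results.MP_aae45c_an.NeverRegular
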